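import Pool.Agent.Helper37.BP.Defs

/-! Part LPB of the BAP project (MP_6f6997_an). -/

open MeasureTheory
open scoped ENNReal NNReal

set_option maxSynthPendingDepth 3

namespace Pool.Agent.Helper31.BAP

open Pool.Agent.BAPp (sgn weakNorm gNorm iNorm incl FiniteRank)
open Pool.Agent.Helper37.BP

/-- duality step: if `|∑ t_j h_j| ≤ C |t|_q` for all `t` then `∑ |h_j|^p ≤ C^p`. -/
theorem lp_dual {p q : ℝ} (hpq : p.HolderConjugate q) {n : ℕ} (h : Fin n → ℝ) (C : ℝ)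
    (hC : 0 ≤ C)
    (H : ∀ t : Fin n → ℝ, |∑ j, t j * h j| ≤ C * (∑ j, |t j| ^ q) ^ (1 / q)) :
    ∑ j, |h j| ^ p ≤ C ^ p := by
  have hp0 : 0 < p := hpq.pos
  have hq0 : 0 < q := hpq.symm.pos
  set Sg0 : ℝ := ∑ j, |h j| ^ p with hS
  have hS0 : 0 ≤ Sg0 := Finset.sum_nonneg fun j _ => Real.rpow_nonneg (abs_nonneg _) _
  rcases hS0.eq_or_lt with h0 | hpos
  · rw [← h0]; exact Real.rpow_nonneg hC _
  have h1 := H (fun j => SignType.sign (h j) * |h j| ^ (p - 1))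
  have e1 : ∑ j, (SignType.sign (h j) * |h j| ^ (p - 1) : ℝ) * h j = Sg0 := by
    refine Finset.sum_congr rfl fun j _ => ?_
    have e : (SignType.sign (h j) * |h j| ^ (p - 1) : ℝ) * h j
        = |h j| ^ (p - 1) * |h j| := by
      rw [← sign_mul_self (h j)]
      ring
    rw [e]
    rcases (abs_nonneg (h j)).eq_or_lt with hz | hz
    · rw [← hz, mul_zero, Real.zero_rpow hp0.ne']
    · nth_rewrite 2 [← Real.rpow_one |h j|]
      rw [← Real.rpow_add hz]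
      congr 1
      ring
  have e2 : ∑ j, |(SignType.sign (h j) * |h j| ^ (p - 1) : ℝ)| ^ q ≤ Sg0 := by
    refine Finset.sum_le_sum fun j _ => ?_
    have e : |(SignType.sign (h j) * |h j| ^ (p - 1) : ℝ)| ≤ |h j| ^ (p - 1) := by
      rw [abs_mul, abs_of_nonneg (Real.rpow_nonneg (abs_nonneg (h j)) (p - 1))]
      have : |((SignType.sign (h j) : SignType) : ℝ)| ≤ 1 := by
        rcases lt_trichotomy (h j) 0 with h' | h' | h' <;> simp [h']
      calc |((SignType.sign (h j) : SignType) : ℝ)| * |h j| ^ (p - 1) ≤ 1 * |h j| ^ (p - 1) :=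
            mul_le_mul_of_nonneg_right this (Real.rpow_nonneg (abs_nonneg _) _)
        _ = _ := one_mul _
    calc |(SignType.sign (h j) * |h j| ^ (p - 1) : ℝ)| ^ q ≤ (|h j| ^ (p - 1)) ^ q :=
          Real.rpow_le_rpow (abs_nonneg _) e hq0.le
      _ = |h j| ^ p := by
          rw [← Real.rpow_mul (abs_nonneg _), hpq.sub_one_mul_conj]
  rw [e1, abs_of_nonneg hS0] at h1
  have h2 : Sg0 ≤ C * Sg0 ^ (1 / q) :=
    h1.trans (mul_le_mul_of_nonneg_left (Real.rpow_le_rpow (Finset.sum_nonneg fun j _ =>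
      Real.rpow_nonneg (abs_nonneg _) _) e2 (by positivity)) hC)
  have h3 : Sg0 ^ (1 / p) ≤ C := by
    have hne : 0 < Sg0 ^ (1 / q) := Real.rpow_pos_of_pos hpos _
    have e3 : Sg0 ^ (1 / p) * Sg0 ^ (1 / q) = Sg0 := by
      rw [← Real.rpow_add hpos]
      have : 1 / p + 1 / q = 1 := by
        have := hpq.inv_add_inv_eq_one
        simpa [one_div] using this
      rw [this, Real.rpow_one]
    nlinarith [h2, e3, hne]
  calc Sg0 = (Sg0 ^ (1 / p)) ^ p := by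
        rw [← Real.rpow_mul hS0, one_div_mul_cancel hp0.ne', Real.rpow_one]
    _ ≤ C ^ p := Real.rpow_le_rpow (Real.rpow_nonneg hS0 _) h3 hp0.le

theorem lpb (p q : ℝ) (hpq : p.HolderConjugate q) [Fact (1 ≤ ENNReal.ofReal p)] {X Ω : Type}
    [NormedAddCommGroup X] [NormedSpace ℝ X] [MeasurableSpace Ω] (μ : Measure Ω)
    [IsProbabilityMeasure μ] (A : X →L[ℝ] Lp ℝ ∞ μ) (n : ℕ) (b : Fin n → X) (lam : ℝ)
    (hlam : 0 ≤ lam)
    (hb : ∀ t : Fin n → ℝ, ‖∑ j, t j • b j‖ ≤ lam * (∑ j, |t j| ^ q) ^ (1 / q)) :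
    ∑ j, ‖incl μ (ENNReal.ofReal p) (A (b j))‖ ^ p ≤ (lam * ‖A‖) ^ p := by
  have hp0 : 0 < p := hpq.pos
  have hq0 : 0 < q := hpq.symm.pos
  set C : ℝ := lam * ‖A‖ with hC
  have hC0 : 0 ≤ C := by positivity
  -- the almost everywhere inequality for fixed `t`
  have h1 : ∀ t : Fin n → ℝ, ∀ᵐ ω ∂μ, |∑ j, t j * (A (b j) : Ω → ℝ) ω| ≤
      C * (∑ j, |t j| ^ q) ^ (1 / q) := by
    intro t
    have e0 : A (∑ j, t j • b j) = ∑ j, t j • A (b j) := by
      rw [map_sum]; exact Finset.sum_congr rfl fun j _ => by rw [map_smul]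
    have e1 : ‖A (∑ j, t j • b j)‖ ≤ C * (∑ j, |t j| ^ q) ^ (1 / q) := by
      calc ‖A (∑ j, t j • b j)‖ ≤ ‖A‖ * ‖∑ j, t j • b j‖ := A.le_opNorm _
        _ ≤ ‖A‖ * (lam * (∑ j, |t j| ^ q) ^ (1 / q)) :=
            mul_le_mul_of_nonneg_left (hb t) (norm_nonneg _)
        _ = _ := by rw [hC]; ring
    have e2 : ∀ᵐ ω ∂μ, ‖(A (∑ j, t j • b j) : Ω → ℝ) ω‖ₑ ≤
        eLpNorm (A (∑ j, t j • b j) : Ω → ℝ) ∞ μ := by
      rw [eLpNorm_exponent_top]
      exact ae_le_eLpNormEssSup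
    have e3 : ⇑(∑ j, t j • A (b j)) =ᵐ[μ] fun ω => ∑ j, (t j • A (b j) : Lp ℝ ∞ μ) ω :=
      Lp.coeFn_fun_finsetSum _ _
    have e4 : ∀ᵐ ω ∂μ, ∀ j, (t j • A (b j) : Lp ℝ ∞ μ) ω = t j * (A (b j) : Ω → ℝ) ω := by
      rw [ae_all_iff]
      intro j
      filter_upwards [Lp.coeFn_smul (t j) (A (b j))] with ω hω
      rw [hω]; rfl
    filter_upwards [e2, e3, e4] with ω h2 h3 h4
    rw [e0] at h2
    rw [h3, ← Lp.enorm_def, ← e0] at h2
    have h5 : ‖∑ j, (t j • A (b j) : Lp ℝ ∞ μ) ω‖ ≤ ‖A (∑ j, t j • b j)‖ := by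
      rw [← ofReal_norm, ← ofReal_norm] at h2
      exact (ENNReal.ofReal_le_ofReal_iff (norm_nonneg _)).1 h2
    rw [Finset.sum_congr rfl (fun j _ => h4 j)] at h5
    rw [Real.norm_eq_abs] at h5
    exact h5.trans e1
  -- for almost every `ω`, the inequality for all `t`
  have h2 : ∀ᵐ ω ∂μ, ∑ j, |(A (b j) : Ω → ℝ) ω| ^ p ≤ C ^ p := by
    have h3 : ∀ᵐ ω ∂μ, ∀ k : ℕ, |∑ j, TopologicalSpace.denseSeq (Fin n → ℝ) k j *
        (A (b j) : Ω → ℝ) ω| ≤
        C * (∑ j, |TopologicalSpace.denseSeq (Fin n → ℝ) k j| ^ q) ^ (1 / q) := by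
      rw [ae_all_iff]
      intro k
      exact h1 _
    filter_upwards [h3] with ω hω
    refine lp_dual hpq _ C hC0 fun t => ?_
    have hcl : IsClosed {t : Fin n → ℝ | |∑ j, t j * (A (b j) : Ω → ℝ) ω| ≤
        C * (∑ j, |t j| ^ q) ^ (1 / q)} := by
      refine isClosed_le (by fun_prop) ?_
      refine continuous_const.mul ?_
      refine Continuous.rpow_const ?_ (fun _ => Or.inr (by positivity))
      refine continuous_finsetSum _ fun j _ => ?_
      exact Continuous.rpow_const (by fun_prop) (fun _ => Or.inr hq0.le)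
    have hsub : Set.range (TopologicalSpace.denseSeq (Fin n → ℝ)) ⊆
        {t : Fin n → ℝ | |∑ j, t j * (A (b j) : Ω → ℝ) ω| ≤
        C * (∑ j, |t j| ^ q) ^ (1 / q)} := by
      rintro _ ⟨k, rfl⟩
      exact hω k
    have := (TopologicalSpace.denseRange_denseSeq (Fin n → ℝ)).closure_range
    have h4 := closure_minimal hsub hcl
    rw [this] at h4
    exact h4 (Set.mem_univ t)
  -- integrate
  have hptop : ENNReal.ofReal p ≠ ∞ := ENNReal.ofReal_ne_top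
  have hpne : ENNReal.ofReal p ≠ 0 := by
    rw [Ne, ENNReal.ofReal_eq_zero, not_le]; exact hp0
  have hmem : ∀ j, MemLp (A (b j) : Ω → ℝ) (ENNReal.ofReal p) μ := fun j =>
    (Lp.memLp (A (b j))).mono_exponent le_top
  have hint : ∀ j, Integrable (fun ω => |(A (b j) : Ω → ℝ) ω| ^ p) μ := by
    intro j
    have := (hmem j).integrable_norm_rpow hpne hptop
    rw [ENNReal.toReal_ofReal hp0.le] at this
    exact this
  have hnorm : ∀ j, ‖incl μ (ENNReal.ofReal p) (A (b j))‖ ^ p =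
      ∫ ω, |(A (b j) : Ω → ℝ) ω| ^ p ∂μ := by
    intro j
    have hI : 0 ≤ ∫ ω, |(A (b j) : Ω → ℝ) ω| ^ p ∂μ :=
      integral_nonneg fun ω => Real.rpow_nonneg (abs_nonneg _) _
    unfold incl
    rw [Lp.norm_toLp, (hmem j).eLpNorm_eq_integral_rpow_norm hpne hptop,
      ENNReal.toReal_ofReal (Real.rpow_nonneg (integral_nonneg fun ω =>
        Real.rpow_nonneg (norm_nonneg _) _) _), ENNReal.toReal_ofReal hp0.le]
    simp only [Real.norm_eq_abs]
    rw [← Real.rpow_mul hI, inv_mul_cancel₀ hp0.ne', Real.rpow_one]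
  rw [Finset.sum_congr rfl (fun j _ => hnorm j), ← integral_finsetSum _ (fun j _ => hint j)]
  calc ∫ ω, ∑ j, |(A (b j) : Ω → ℝ) ω| ^ p ∂μ ≤ ∫ _, C ^ p ∂μ :=
        integral_mono_ae (integrable_finsetSum _ (fun j _ => hint j)) (integrable_const _) h2
    _ = C ^ p := by simp

end Pool.Agent.Helper31.BAP
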