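import Pool.Agent.Helper37.BP.SysDefs
import Pool.Agent.Helper88.BAP.SD

/-! Part SA of the BAP project (MP_6f6997_an): pairings, the system, orthogonality. -/

open MeasureTheory
open scoped ENNReal NNReal

set_option maxSynthPendingDepth 3

namespace Pool.Agent.Helper31.BAP

open Pool.Agent.BAPp (sgn)
open Pool.Agent.BAPp.Khin (sgn_sq abs_sgn)
open Pool.Agent.Helper37.BP
open Pool.Agent.Helper88.BAP (ip_vv ip_smul_left ip_sum_left ip_sub_left supp_smul supp_sum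
  ev_supp xi_supp sum_sgn)

theorem tsum_level (Φ : Gam → ℝ) (k : ℕ) (h : ∀ γ : Gam, γ.1 ≠ k → Φ γ = 0) :
    ∑' γ, Φ γ = ∑ g : Sg k × (Sg k → Bool), Φ ⟨k, g⟩ := by
  have hsupp : Function.support Φ ⊆
      Set.range (fun g : Sg k × (Sg k → Bool) => (⟨k, g⟩ : Gam)) := by
    rintro ⟨k', g⟩ hγ
    have hk : k' = k := by
      by_contra hne
      exact hγ (h ⟨k', g⟩ hne)
    subst hk
    exact ⟨g, rfl⟩
  have hinj : Function.Injective (fun g : Sg k × (Sg k → Bool) => (⟨k, g⟩ : Gam)) := by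
    intro a b hab
    simpa using hab
  rw [← hinj.tsum_eq hsupp, tsum_fintype]

theorem ip_comm {Γ : Type} (ρ v w : Γ → ℝ) : ip ρ v w = ip ρ w v := by
  unfold ip
  exact tsum_congr fun γ => by rw [mul_comm (v γ)]

theorem rp_pos {s : ℝ} (hs0 : 0 < s) (hs1 : s < 1) (k : ℕ) : 0 < rp s k := by
  unfold rp
  have : 0 < 1 - s := by linarith
  positivity

theorem m_pos (t : Tree) (k : ℕ) (h : Sg k) : 0 < (t.m k : ℝ) := by
  have h1 : 0 < t.m k := by
    rw [← t.A_card k h]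
    exact Finset.card_pos.2 ⟨h, t.A_self k h⟩
  exact_mod_cast h1

/-- the pairing of two vectors on the same level -/
theorem ip_ev_ev (t : Tree) (s : ℝ) (k : ℕ) (h h' : Sg k) :
    ip (rho s) (ev t k h) (ev t k h') = if h = h' then t.m k * rp s k else 0 := by
  classical
  unfold ip
  rw [tsum_level _ k]
  · have e1 : ∀ g : Sg k × (Sg k → Bool), rho s (⟨k, g⟩ : Gam) *
        (ev t k h ⟨k, g⟩ * ev t k h' ⟨k, g⟩) = rp s k / 2 ^ (2 ^ k) *
        ((if g.1 ∈ t.A k h ∧ g.1 ∈ t.A k h' then 1 else 0) * (sgn (g.2 h) * sgn (g.2 h'))) := by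
      intro g
      unfold ev
      rw [lev_same, lev_same]
      have : rho s (⟨k, g⟩ : Gam) = rp s k / 2 ^ (2 ^ k) := rfl
      rw [this]
      by_cases h1 : g.1 ∈ t.A k h <;> by_cases h2 : g.1 ∈ t.A k h' <;> simp [h1, h2]
    rw [Finset.sum_congr rfl (fun g _ => e1 g), ← Finset.mul_sum, Fintype.sum_prod_type]
    have e2 : ∀ x : Sg k, ∑ y : Sg k → Bool,
        (if x ∈ t.A k h ∧ x ∈ t.A k h' then (1 : ℝ) else 0) * (sgn (y h) * sgn (y h')) =
        (if x ∈ t.A k h ∧ x ∈ t.A k h' then (1 : ℝ) else 0) *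
          (if h = h' then 2 ^ (2 ^ k) else 0) := by
      intro x
      rw [← Finset.mul_sum, sum_sgn, Helper88.BAP.card_Sg]
    rw [Finset.sum_congr rfl (fun x _ => e2 x)]
    by_cases hh : h = h'
    · subst hh
      simp only [and_self, if_true]
      rw [← Finset.sum_mul]
      have e3 : ∑ x : Sg k, (if x ∈ t.A k h then (1 : ℝ) else 0) = t.m k := by
        rw [Finset.sum_ite_mem, Finset.univ_inter, Finset.sum_const, t.A_card, nsmul_eq_mul,
          mul_one]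
      rw [e3]
      have : (2 : ℝ) ^ (2 ^ k) ≠ 0 := by positivity
      field_simp
    · simp [hh]
  · intro γ hγ
    unfold ev
    rw [lev_ne _ _ _ hγ]; simp

theorem ip_xi_left (t : Tree) (s : ℝ) (k : ℕ) (h : Sg k) (y : Gam → ℝ) :
    ip (rho s) (xi t s k h) y = (t.m k * rp s k)⁻¹ * ip (rho s) (ev t k h) y := by
  rw [← ip_smul_left]
  congr 1
  funext γ
  unfold xi
  rw [div_eq_inv_mul]

theorem ip_xi_ev (t : Tree) (s : ℝ) (hs0 : 0 < s) (hs1 : s < 1) (k : ℕ) (h h' : Sg k) :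
    ip (rho s) (xi t s k h) (ev t k h') = if h = h' then 1 else 0 := by
  rw [ip_xi_left, ip_ev_ev]
  have h1 : (t.m k * rp s k) ≠ 0 := (mul_pos (m_pos t k h) (rp_pos hs0 hs1 k)).ne'
  split_ifs
  · exact inv_mul_cancel₀ h1
  · exact mul_zero _

theorem ip_ev_ne (t : Tree) (s : ℝ) (k k' : ℕ) (hk : k ≠ k') (h : Sg k) (h' : Sg k') :
    ip (rho s) (ev t k h) (ev t k' h') = 0 := by
  unfold ip
  refine (tsum_congr fun γ => ?_).trans tsum_zero
  by_cases h1 : γ.1 = k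
  · have h2 : γ.1 ≠ k' := fun h3 => hk (h1.symm.trans h3)
    unfold ev
    rw [lev_ne k' _ _ h2]; ring
  · unfold ev
    rw [lev_ne k _ _ h1]; ring

theorem ip_xi_ev_ne (t : Tree) (s : ℝ) (k k' : ℕ) (hk : k ≠ k') (h : Sg k) (h' : Sg k') :
    ip (rho s) (xi t s k h) (ev t k' h') = 0 := by
  rw [ip_xi_left, ip_ev_ne t s k k' hk, mul_zero]

/-! ### pairings of `v_i` with `ê_h` -/

theorem ip_vv_ev1 (t : Tree) (s : ℝ) (hs0 : 0 < s) (hs1 : s < 1) (n : ℕ) (i i' : Sg n)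
    (c : Bool) :
    ip (rho s) (vv t s n i) (ev t (n + 1) (ch i' c)) = if i = i' then sgn c / 2 else 0 := by
  rw [ip_vv]
  have e1 : ∀ c', ip (rho s) (xi t s (n + 1) (ch i c')) (ev t (n + 1) (ch i' c)) =
      if i = i' ∧ c' = c then 1 else 0 := by
    intro c'
    rw [ip_xi_ev t s hs0 hs1]
    have : ch i c' = ch i' c ↔ i = i' ∧ c' = c := by
      constructor
      · intro h
        exact ⟨by rw [← pr_ch i c', h, pr_ch], by rw [← ch_last i c', h, ch_last]⟩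
      · rintro ⟨rfl, rfl⟩; rfl
    simp only [this]
  have e2 : ∀ c₁ c₂, ip (rho s) (xi t s (n + 2) (ch (ch i c₁) c₂)) (ev t (n + 1) (ch i' c))
      = 0 := fun c₁ c₂ => ip_xi_ev_ne t s _ _ (by omega) _ _
  simp only [e1, e2]
  by_cases hi : i = i'
  · subst hi
    cases c <;> simp [sgn] <;> norm_num
  · simp [hi]

theorem ip_vv_ev2 (t : Tree) (s : ℝ) (hs0 : 0 < s) (hs1 : s < 1) (n : ℕ) (i : Sg n)
    (j : Sg (n + 2)) :
    ip (rho s) (vv t s n i) (ev t (n + 2) j) = if i = pr (pr j) then -(1 / 4) else 0 := by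
  rw [ip_vv]
  have e1 : ∀ c', ip (rho s) (xi t s (n + 1) (ch i c')) (ev t (n + 2) j) = 0 :=
    fun c' => ip_xi_ev_ne t s _ _ (by omega) _ _
  have e2 : ∀ c₁ c₂, ip (rho s) (xi t s (n + 2) (ch (ch i c₁) c₂)) (ev t (n + 2) j)
      = if i = pr (pr j) ∧ c₁ = pr j (Fin.last n) ∧ c₂ = j (Fin.last (n + 1)) then 1 else 0 := by
    intro c₁ c₂
    rw [ip_xi_ev t s hs0 hs1]
    have : ch (ch i c₁) c₂ = j ↔
        i = pr (pr j) ∧ c₁ = pr j (Fin.last n) ∧ c₂ = j (Fin.last (n + 1)) := by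
      constructor
      · rintro rfl
        simp
      · rintro ⟨rfl, rfl, rfl⟩
        rw [ch_pr, ch_pr]
    simp only [this]
  simp only [e1, e2]
  by_cases hi : i = pr (pr j)
  · cases pr j (Fin.last n) <;> cases j (Fin.last (n + 1)) <;>
      simp only [Fintype.sum_bool, hi] <;> norm_num
  · simp [hi]

theorem ip_vv_ev3 (t : Tree) (s : ℝ) (n k : ℕ) (h1 : k ≠ n + 1) (h2 : k ≠ n + 2) (i : Sg n)
    (j : Sg k) :
    ip (rho s) (vv t s n i) (ev t k j) = 0 := by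
  rw [ip_vv]
  have e1 : ∀ c', ip (rho s) (xi t s (n + 1) (ch i c')) (ev t k j) = 0 :=
    fun c' => ip_xi_ev_ne t s _ _ (Ne.symm h1) _ _
  have e2 : ∀ c₁ c₂, ip (rho s) (xi t s (n + 2) (ch (ch i c₁) c₂)) (ev t k j) = 0 :=
    fun c₁ c₂ => ip_xi_ev_ne t s _ _ (Ne.symm h2) _ _
  simp only [e1, e2]
  simp

/-- `ip` of `v_i` with `ẑ_j`, as a sum -/
theorem ip_zz (t : Tree) (s : ℝ) (n : ℕ) (j : Sg n) (y : Gam → ℝ) :
    ip (rho s) (zz t n j) y =
      ∑ c, sgn c * ip (rho s) (ev t (n + 1) (ch j c)) y +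
      ∑ c, ∑ c', ip (rho s) (ev t (n + 2) (ch (ch j c) c')) y := by
  have h1 : ∀ c, (Function.support fun γ => sgn c * ev t (n + 1) (ch j c) γ).Finite := fun c =>
    supp_smul _ (ev_supp t _ _)
  have h3 : ∀ c, (Function.support fun γ => ∑ c', ev t (n + 2) (ch (ch j c) c') γ).Finite :=
    fun c => supp_sum _ _ fun c' _ => ev_supp t _ _
  have h2 : (Function.support fun γ => ∑ c, sgn c * ev t (n + 1) (ch j c) γ).Finite :=
    supp_sum _ _ fun c _ => h1 c
  have h4 : (Function.support fun γ => ∑ c, ∑ c', ev t (n + 2) (ch (ch j c) c') γ).Finite :=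
    supp_sum _ _ fun c _ => h3 c
  have e1 : ∑ c, ip (rho s) (fun γ => sgn c * ev t (n + 1) (ch j c) γ) y =
      ∑ c, sgn c * ip (rho s) (ev t (n + 1) (ch j c)) y :=
    Finset.sum_congr rfl fun c _ => ip_smul_left _ _
  have e2 : ∑ c, ip (rho s) (fun γ => ∑ c', ev t (n + 2) (ch (ch j c) c') γ) y =
      ∑ c, ∑ c', ip (rho s) (ev t (n + 2) (ch (ch j c) c')) y :=
    Finset.sum_congr rfl fun c _ =>
      ip_sum_left Finset.univ (fun c' => ev t (n + 2) (ch (ch j c) c'))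
        (fun c' _ => ev_supp t _ _) y
  rw [← e1, ← e2, ← ip_sum_left _ _ (fun c _ => h1 c), ← ip_sum_left _ _ (fun c _ => h3 c)]
  have e3 : zz t n j = fun γ => (∑ c, sgn c * ev t (n + 1) (ch j c) γ) -
      ((-1) * ∑ c, ∑ c', ev t (n + 2) (ch (ch j c) c') γ) := by
    funext γ
    unfold zz
    ring
  rw [e3, ip_sub_left h2 (supp_smul _ h4), ip_smul_left]
  ring

theorem ip_vv_zz (t : Tree) (s : ℝ) (hs0 : 0 < s) (hs1 : s < 1) (n' : ℕ) (i : Sg n') (n : ℕ)
    (j : Sg n) :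
    ip (rho s) (vv t s n' i) (zz t n j) = 0 := by
  rw [ip_comm, ip_zz]
  simp only [ip_comm (rho s) (ev t _ _)]
  by_cases h1 : n' = n
  · subst h1
    simp only [ip_vv_ev1 t s hs0 hs1, ip_vv_ev2 t s hs0 hs1, pr_ch]
    by_cases hi : i = j
    · simp [hi, sgn]; norm_num
    · simp [hi]
  by_cases h2 : n = n' + 1
  · subst h2
    have e1 : ∀ c, ip (rho s) (vv t s n' i) (ev t (n' + 1 + 1) (ch j c)) =
        if i = pr j then -(1 / 4) else 0 := by
      intro c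
      have := ip_vv_ev2 t s hs0 hs1 n' i (ch j c)
      rw [pr_ch] at this
      exact this
    have e2 : ∀ c c', ip (rho s) (vv t s n' i) (ev t (n' + 1 + 2) (ch (ch j c) c')) = 0 :=
      fun c c' => ip_vv_ev3 t s n' _ (by omega) (by omega) _ _
    simp only [e1, e2]
    by_cases hi : i = pr j
    · simp [hi, sgn]
    · simp [hi]
  by_cases h3 : n' = n + 1
  · subst h3
    have e1 : ∀ c, ip (rho s) (vv t s (n + 1) i) (ev t (n + 1) (ch j c)) = 0 :=
      fun c => ip_vv_ev3 t s (n + 1) _ (by omega) (by omega) _ _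
    have e2 : ∀ c c', ip (rho s) (vv t s (n + 1) i) (ev t (n + 2) (ch (ch j c) c')) =
        if i = ch j c then sgn c' / 2 else 0 :=
      fun c c' => ip_vv_ev1 t s hs0 hs1 (n + 1) i (ch j c) c'
    simp only [e1, e2]
    have e3 : ∀ c, ∑ c', (if i = ch j c then sgn c' / 2 else 0) = 0 := by
      intro c
      by_cases hi : i = ch j c
      · simp [hi, sgn]; norm_num
      · simp [hi]
    simp only [e3]
    simp
  · have e1 : ∀ c, ip (rho s) (vv t s n' i) (ev t (n + 1) (ch j c)) = 0 :=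
      fun c => ip_vv_ev3 t s n' _ (by omega) (by omega) _ _
    have e2 : ∀ c c', ip (rho s) (vv t s n' i) (ev t (n + 2) (ch (ch j c) c')) = 0 :=
      fun c c' => ip_vv_ev3 t s n' _ (by omega) (by omega) _ _
    simp only [e1, e2]
    simp

theorem ip_vhat (t : Tree) (s : ℝ) (i : Ix) (y : Gam → ℝ) :
    ip (rho s) (vhat t s i) y = (Real.sqrt (nv t s i.1))⁻¹ * ip (rho s) (vv t s i.1 i.2) y := by
  rw [← ip_smul_left]
  congr 1
  funext γ
  unfold vhat
  rw [div_eq_inv_mul]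

theorem ip_vhat_zz (t : Tree) (s : ℝ) (hs0 : 0 < s) (hs1 : s < 1) (i : Ix) (n : ℕ) (j : Sg n) :
    ip (rho s) (vhat t s i) (zz t n j) = 0 := by
  rw [ip_vhat, ip_vv_zz t s hs0 hs1, mul_zero]

/-- pairing of `v_i` with `ξ_h` in terms of the pairing with `ê_h` -/
theorem ip_xi_comm (t : Tree) (s : ℝ) (k : ℕ) (h : Sg k) (y : Gam → ℝ) :
    ip (rho s) (xi t s k h) y = (t.m k * rp s k)⁻¹ * ip (rho s) y (ev t k h) := by
  rw [ip_xi_left, ip_comm]

/-- pairings of the constraint vectors -/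
theorem ip_vv_vv (t : Tree) (s : ℝ) (hs0 : 0 < s) (hs1 : s < 1) (n : ℕ) (i i' : Sg n) :
    ip (rho s) (vv t s n i) (vv t s n i') = if i = i' then nv t s n else 0 := by
  rw [ip_vv]
  simp only [ip_xi_comm]
  simp only [ip_vv_ev1 t s hs0 hs1, ip_vv_ev2 t s hs0 hs1, pr_ch]
  by_cases hi : i' = i
  · subst hi
    have h1 : (t.m (n + 1) * rp s (n + 1)) ≠ 0 :=
      (mul_pos (m_pos t _ (ch i' true)) (rp_pos hs0 hs1 _)).ne'
    have h2 : (t.m (n + 2) * rp s (n + 2)) ≠ 0 :=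
      (mul_pos (m_pos t _ (ch (ch i' true) true)) (rp_pos hs0 hs1 _)).ne'
    have h3 : sgn true = 1 := rfl
    have h4 : sgn false = -1 := rfl
    unfold nv
    simp only [if_true, Fintype.sum_bool, h3, h4]
    field_simp
    ring
  · have hi' : i ≠ i' := fun h => hi h.symm
    simp [hi, hi']

theorem ip_vv_vv_ne (t : Tree) (s : ℝ) (hs0 : 0 < s) (hs1 : s < 1) (n n' : ℕ) (h : n < n')
    (i : Sg n) (i' : Sg n') :
    ip (rho s) (vv t s n i) (vv t s n' i') = 0 := by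
  rw [ip_comm, ip_vv]
  simp only [ip_xi_comm]
  by_cases h2 : n' = n + 1
  · subst h2
    have e1 : ∀ c, ip (rho s) (vv t s n i) (ev t (n + 1 + 1) (ch i' c)) =
        if i = pr i' then -(1 / 4) else 0 := by
      intro c
      have := ip_vv_ev2 t s hs0 hs1 n i (ch i' c)
      rw [pr_ch] at this
      exact this
    have e2 : ∀ c c', ip (rho s) (vv t s n i) (ev t (n + 1 + 2) (ch (ch i' c) c')) = 0 :=
      fun c c' => ip_vv_ev3 t s n _ (by omega) (by omega) _ _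
    simp only [e1, e2]
    by_cases hi : i = pr i'
    · simp [hi, sgn]
    · simp [hi]
  · have e1 : ∀ c, ip (rho s) (vv t s n i) (ev t (n' + 1) (ch i' c)) = 0 :=
      fun c => ip_vv_ev3 t s n _ (by omega) (by omega) _ _
    have e2 : ∀ c c', ip (rho s) (vv t s n i) (ev t (n' + 2) (ch (ch i' c) c')) = 0 :=
      fun c c' => ip_vv_ev3 t s n _ (by omega) (by omega) _ _
    simp only [e1, e2]
    simp

theorem vv_ne (t : Tree) (s : ℝ) (n : ℕ) (i : Sg n) (γ : Gam) (h1 : γ.1 ≠ n + 1)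
    (h2 : γ.1 ≠ n + 2) : vv t s n i γ = 0 := by
  have e1 : ∀ c, xi t s (n + 1) (ch i c) γ = 0 := by
    intro c
    unfold xi ev
    rw [lev_ne _ _ _ h1, zero_div]
  have e2 : ∀ c c', xi t s (n + 2) (ch (ch i c) c') γ = 0 := by
    intro c c'
    unfold xi ev
    rw [lev_ne _ _ _ h2, zero_div]
  unfold vv
  simp only [e1, e2]
  simp

theorem nv_pos (t : Tree) {s : ℝ} (hs0 : 0 < s) (hs1 : s < 1) (n : ℕ) : 0 < nv t s n := by
  have h1 := mul_pos (m_pos t (n + 1) (fun _ => true)) (rp_pos hs0 hs1 (n + 1))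
  have h2 := mul_pos (m_pos t (n + 2) (fun _ => true)) (rp_pos hs0 hs1 (n + 2))
  unfold nv
  positivity

theorem rho_pos {s : ℝ} (hs0 : 0 < s) (hs1 : s < 1) (γ : Gam) : 0 < rho s γ := by
  unfold rho
  have := rp_pos hs0 hs1 γ.1
  positivity

theorem rho_hasSum {s : ℝ} (hs0 : 0 < s) (hs1 : s < 1) : HasSum (rho s) 1 := by
  have h1 : ∀ k : ℕ, ∑' g : Sg k × (Sg k → Bool), rho s (⟨k, g⟩ : Gam) = (1 - s) * s ^ k := by
    intro k
    rw [tsum_fintype]
    have e : ∀ g : Sg k × (Sg k → Bool), rho s (⟨k, g⟩ : Gam) = rp s k / 2 ^ (2 ^ k) :=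
      fun g => rfl
    rw [Finset.sum_congr rfl (fun g _ => e g), Finset.sum_const, Finset.card_univ,
      nsmul_eq_mul]
    have hc : Fintype.card (Sg k × (Sg k → Bool)) = 2 ^ k * 2 ^ (2 ^ k) := by
      simp
    rw [hc]
    unfold rp
    push_cast
    have h2 : (2 : ℝ) ^ (2 ^ k) ≠ 0 := by positivity
    field_simp
  have hgeo : HasSum (fun k : ℕ => (1 - s) * s ^ k) 1 := by
    have := (hasSum_geometric_of_lt_one hs0.le hs1).mul_left (1 - s)
    rwa [mul_inv_cancel₀ (by linarith : (1 - s) ≠ 0)] at this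
  have hsum : Summable (rho s) := by
    rw [summable_sigma_of_nonneg (fun γ => (rho_pos hs0 hs1 γ).le)]
    refine ⟨fun k => Summable.of_finite, ?_⟩
    simp only [h1]
    exact hgeo.summable
  refine HasSum.sigma_of_hasSum hgeo (fun k => ?_) hsum
  rw [← h1 k]
  exact (Summable.of_finite (f := fun g : Sg k × (Sg k → Bool) => rho s (⟨k, g⟩ : Gam))).hasSum

theorem sys_exists (t : Tree) (s : ℝ) (hs0 : 0 < s) (hs1 : s < 1) :
    ∃ D : Sys Gam Ix, D.ρ = rho s ∧ D.vh = vhat t s := by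
  refine ⟨⟨rho s, vhat t s, rho_pos hs0 hs1, (rho_hasSum hs0 hs1).summable,
    (rho_hasSum hs0 hs1).tsum_eq.le, ?_, ?_, ?_, ?_⟩, rfl, rfl⟩
  · rintro ⟨n, i⟩
    refine ((Set.finite_range (fun g : Sg (n + 1) × (Sg (n + 1) → Bool) =>
      (⟨n + 1, g⟩ : Gam))).union (Set.finite_range (fun g : Sg (n + 2) × (Sg (n + 2) → Bool) =>
      (⟨n + 2, g⟩ : Gam)))).subset ?_
    rintro ⟨k, g⟩ hγ
    by_cases h1 : k = n + 1
    · subst h1; exact Or.inl ⟨g, rfl⟩
    by_cases h2 : k = n + 2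
    · subst h2; exact Or.inr ⟨g, rfl⟩
    · exfalso
      apply hγ
      unfold vhat
      rw [vv_ne t s n i ⟨k, g⟩ h1 h2, zero_div]
  · rintro ⟨k, g⟩
    refine (Set.Finite.biUnion (Set.finite_Iio k)
      (fun n _ => Set.finite_range (fun i : Sg n => (⟨n, i⟩ : Ix)))).subset ?_
    rintro ⟨n, i⟩ hi
    rw [Set.mem_iUnion₂]
    refine ⟨n, ?_, ⟨i, rfl⟩⟩
    rw [Set.mem_Iio]
    by_contra hlt
    apply hi
    unfold vhat
    rw [vv_ne t s n i ⟨k, g⟩ (by simp only; omega) (by simp only; omega), zero_div]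
  · rintro ⟨n, i⟩
    have h1 := nv_pos t hs0 hs1 n
    rw [ip_vhat, ip_comm, ip_vhat, ip_vv_vv t s hs0 hs1, if_pos rfl, ← mul_assoc, ← mul_inv,
      Real.mul_self_sqrt h1.le, inv_mul_cancel₀ h1.ne']
  · rintro ⟨n, i⟩ ⟨n', i'⟩ hne
    rw [ip_vhat, ip_comm, ip_vhat]
    have : ip (rho s) (vv t s n' i') (vv t s n i) = 0 := by
      rcases lt_trichotomy n n' with h | h | h
      · rw [ip_comm]; exact ip_vv_vv_ne t s hs0 hs1 n n' h i i'
      · subst h
        rw [ip_vv_vv t s hs0 hs1, if_neg]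
        rintro rfl
        exact hne rfl
      · exact ip_vv_vv_ne t s hs0 hs1 n' n h i' i
    simp only [this]
    simp

end Pool.Agent.Helper31.BAP
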